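import Mathlib

/-!
The exact form of the Chung-Graham statement on sparse halves fails for `t = 4`, for `t = 6`,
for `t = 9`, ... and for every `t ≥ 88`.

Construction: `G` is the join of `a` five-cycles and `r - 2a` independent pairs, where `r = t - 1`.
The complement of `G` has maximum degree two, and the halves are compared with a half of the
Turán graph `T_r(2r + a)` consisting of complete parts of size three.
-/

namespace Pool.Agent.Results.MP_c86f36_co.ExactFormFails

open SimpleGraph Finset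

/-- The number `e_G(S)` of edges of `G` with both endpoints in `S`. -/
noncomputable def spanned {V : Type} (G : SimpleGraph V) (S : Finset V) : ℕ :=
  (G.induce (S : Set V)).edgeSet.ncard

/-- `b_t(n)`: the least number of edges spanned by a set of `⌊n/2⌋` vertices of the Turán graph
`T_{t-1}(n)`. -/
noncomputable def b (t n : ℕ) : ℕ :=
  sInf {m : ℕ | ∃ S : Finset (Fin n), S.card = n / 2 ∧ spanned (turanGraph n (t - 1)) S = m}

open Classical in
lemma two_mul_spanned {V : Type} (G : SimpleGraph V) (S : Finset V) :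
    2 * spanned G S = ∑ x ∈ S, #{y ∈ S | G.Adj x y} := by
  have h1 : spanned G S = #(G.induce (S : Set V)).edgeFinset := by
    unfold spanned
    rw [Set.ncard_eq_toFinset_card']
    rfl
  rw [h1, ← sum_degrees_eq_twice_card_edges]
  have h2 : ∀ v : ((S : Set V) : Type), (G.induce (S : Set V)).degree v =
      #{y ∈ S | G.Adj v.1 y} := by
    intro v
    rw [← card_neighborFinset_eq_degree]
    refine Finset.card_bij (fun y _ => y.1) ?_ ?_ ?_
    · intro y hy
      simp only [mem_neighborFinset, comap_adj, Function.Embedding.subtype_apply] at hy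
      simp only [Finset.mem_filter]
      exact ⟨y.2, hy⟩
    · intro y _ z _ hyz
      exact Subtype.ext hyz
    · intro y hy
      simp only [Finset.mem_filter] at hy
      exact ⟨⟨y, hy.1⟩, by simpa using hy.2, rfl⟩
  rw [Finset.sum_congr rfl (fun v _ => h2 v)]
  exact Finset.sum_coe_sort S (fun x => #{y ∈ S | G.Adj x y})

/-- The upper bound for `b`. -/
lemma b_le (r a h c : ℕ) (hr : 0 < r) (ha : a ≤ r) (hh : h = (2 * r + a) / 2) (hc : h = 3 * c)
    (hca : c ≤ a) : 2 * b (r + 1) (2 * r + a) ≤ h * (h - 3) := by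
  classical
  have hlt : ∀ (i : Fin c) (j : Fin 3), i.1 + j.1 * r < 2 * r + a := by
    intro i j
    have h1 := i.2
    have h2 := j.2
    have h3 : j.1 * r ≤ 2 * r := Nat.mul_le_mul_right r (by omega)
    omega
  let φ : Fin c × Fin 3 → Fin (2 * r + a) := fun p => ⟨p.1.1 + p.2.1 * r, hlt p.1 p.2⟩
  have hmod : ∀ p, (φ p).1 % r = p.1.1 := by
    intro p
    show (p.1.1 + p.2.1 * r) % r = p.1.1
    rw [Nat.add_mul_mod_self_right]
    exact Nat.mod_eq_of_lt (by have := p.1.2; omega)
  have hφ : Function.Injective φ := by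
    intro p q hpq
    have h1 : p.1.1 = q.1.1 := by rw [← hmod p, ← hmod q, hpq]
    have h2 : p.1.1 + p.2.1 * r = q.1.1 + q.2.1 * r := congrArg Fin.val hpq
    have h3 : p.2.1 * r = q.2.1 * r := by omega
    have h4 : p.2.1 = q.2.1 := Nat.eq_of_mul_eq_mul_right hr h3
    exact Prod.ext (Fin.ext h1) (Fin.ext h4)
  let S : Finset (Fin (2 * r + a)) := Finset.univ.image φ
  have hScard : S.card = (2 * r + a) / 2 := by
    rw [Finset.card_image_of_injective _ hφ]
    simp only [Finset.card_univ, Fintype.card_prod, Fintype.card_fin]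
    omega
  have hb : b (r + 1) (2 * r + a) ≤ spanned (turanGraph (2 * r + a) (r + 1 - 1)) S :=
    Nat.sInf_le ⟨S, hScard, rfl⟩
  have hsum : 2 * spanned (turanGraph (2 * r + a) (r + 1 - 1)) S = h * (h - 3) := by
    rw [two_mul_spanned]
    rw [Finset.sum_image (fun p _ q _ hpq => hφ hpq)]
    have h1 : ∀ p : Fin c × Fin 3,
        #{y ∈ S | (turanGraph (2 * r + a) (r + 1 - 1)).Adj (φ p) y} = h - 3 := by
      intro p
      have h2 : ({y ∈ S | (turanGraph (2 * r + a) (r + 1 - 1)).Adj (φ p) y}) =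
          (Finset.univ.filter (fun q : Fin c × Fin 3 => q.1 ≠ p.1)).image φ := by
        ext y
        simp only [Finset.mem_filter, Finset.mem_image, S, Finset.mem_univ, true_and,
          turanGraph_adj, Nat.add_sub_cancel]
        constructor
        · rintro ⟨⟨q, rfl⟩, h3⟩
          refine ⟨q, ?_, rfl⟩
          intro h4
          apply h3
          rw [hmod, hmod, h4]
        · rintro ⟨q, h3, rfl⟩
          refine ⟨⟨q, rfl⟩, ?_⟩
          rw [hmod, hmod]
          intro h4
          exact h3 (Fin.ext h4.symm)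
      rw [h2, Finset.card_image_of_injective _ hφ]
      have h3 : (Finset.univ.filter (fun q : Fin c × Fin 3 => q.1 ≠ p.1)) =
          (Finset.univ.erase p.1) ×ˢ (Finset.univ : Finset (Fin 3)) := by
        ext q
        simp
      rw [h3, Finset.card_product, Finset.card_erase_of_mem (Finset.mem_univ _)]
      simp only [Finset.card_univ, Fintype.card_fin]
      have := p.1.2
      omega
    calc _ = ∑ _p : Fin c × Fin 3, (h - 3) := by
          refine Finset.sum_congr rfl (fun p _ => ?_)
          refine Eq.trans ?_ (h1 p)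
          congr
      _ = h * (h - 3) := by
          rw [Finset.sum_const, Finset.card_univ, Fintype.card_prod, Fintype.card_fin,
            Fintype.card_fin, smul_eq_mul]
          congr 1
          omega
  omega

/-- The vertex type: `a` five-cycles and `m` pairs. -/
abbrev Vert (a m : ℕ) : Type := (Fin a × Fin 5) ⊕ (Fin m × Fin 2)

/-- Adjacency in the complement: five-cycles and single edges. -/
def cadj {a m : ℕ} : Vert a m → Vert a m → Prop
  | .inl p, .inl q => p.1 = q.1 ∧ (q.2 = p.2 + 1 ∨ p.2 = q.2 + 1)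
  | .inr p, .inr q => p.1 = q.1 ∧ p.2 ≠ q.2
  | _, _ => False

instance {a m : ℕ} : DecidableRel (@cadj a m) := fun x y => by
  rcases x with x | x <;> rcases y with y | y <;> unfold cadj <;> infer_instance

lemma cadj_symm {a m : ℕ} {x y : Vert a m} (h : cadj x y) : cadj y x := by
  rcases x with p | p <;> rcases y with q | q
  · exact ⟨h.1.symm, h.2.symm⟩
  · exact h
  · exact h
  · exact ⟨h.1.symm, h.2.symm⟩

/-- The graph `G`: the join of `a` five-cycles and `m` independent pairs. -/
def G (a m : ℕ) : SimpleGraph (Vert a m) where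
  Adj x y := x ≠ y ∧ ¬ cadj x y
  symm := ⟨fun _ _ h => ⟨h.1.symm, fun h1 => h.2 (cadj_symm h1)⟩⟩
  loopless := ⟨fun _ h => h.1 rfl⟩

lemma G_adj {a m : ℕ} {x y : Vert a m} : (G a m).Adj x y ↔ x ≠ y ∧ ¬ cadj x y := Iff.rfl

/-- Every clique of `G a m` has at most `2a + m` vertices. -/
lemma clique_card {a m : ℕ} (S : Finset (Vert a m)) (hS : (G a m).IsClique (S : Set (Vert a m))) :
    S.card ≤ 2 * a + m := by
  classical
  -- the component of a vertex
  let comp : Vert a m → Fin a ⊕ Fin m := fun x => match x with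
    | .inl p => .inl p.1
    | .inr p => .inr p.1
  have h1 : S.card = ∑ k : Fin a ⊕ Fin m, #{x ∈ S | comp x = k} :=
    Finset.card_eq_sum_card_fiberwise (fun x _ => Finset.mem_coe.mpr (Finset.mem_univ _))
  rw [h1, Fintype.sum_sum_type]
  have h2 : ∀ i : Fin a, #{x ∈ S | comp x = .inl i} ≤ 2 := by
    intro i
    let T : Finset (Fin 5) := Finset.univ.filter (fun k => Sum.inl (i, k) ∈ S)
    have h3 : #{x ∈ S | comp x = .inl i} ≤ #T := by
      refine Finset.card_le_card_of_surjOn (fun k => Sum.inl (i, k)) ?_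
      intro x hx
      simp only [Finset.coe_filter, Set.mem_ofPred_eq] at hx
      obtain ⟨hx1, hx2⟩ := hx
      rcases x with p | p
      · have hp : p.1 = i := Sum.inl_injective hx2
        refine ⟨p.2, ?_, ?_⟩
        · simp only [T, Finset.coe_filter, Set.mem_ofPred_eq, Finset.mem_univ, true_and]
          rw [← hp]
          exact hx1
        · show Sum.inl (i, p.2) = Sum.inl p
          rw [← hp]
      · exact absurd hx2 (by simp [comp])
    refine h3.trans ?_
    have h4 : ∀ k ∈ T, k + 1 ∉ T := by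
      intro k hk hk1
      simp only [T, Finset.mem_filter, Finset.mem_univ, true_and] at hk hk1
      have hne : (Sum.inl (i, k) : Vert a m) ≠ Sum.inl (i, k + 1) := by
        intro h
        have := (Prod.mk.inj (Sum.inl_injective h)).2
        clear h hk hk1
        revert k
        decide
      have := hS hk hk1 hne
      rw [G_adj] at this
      exact this.2 ⟨rfl, Or.inl rfl⟩
    clear_value T
    clear h3
    revert T
    decide
  have h3 : ∀ j : Fin m, #{x ∈ S | comp x = .inr j} ≤ 1 := by
    intro j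
    rw [Finset.card_le_one]
    intro x hx y hy
    simp only [Finset.mem_filter] at hx hy
    obtain ⟨hx1, hx2⟩ := hx
    obtain ⟨hy1, hy2⟩ := hy
    by_contra hne
    have hxy := hS hx1 hy1 hne
    rcases x with p | p
    · exact absurd hx2 (by simp [comp])
    · rcases y with q | q
      · exact absurd hy2 (by simp [comp])
      · have hp : p.1 = j := Sum.inr_injective hx2
        have hq : q.1 = j := Sum.inr_injective hy2
        rw [G_adj] at hxy
        apply hxy.2
        refine ⟨hp.trans hq.symm, ?_⟩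
        intro h
        exact hne (congrArg _ (Prod.ext (hp.trans hq.symm) h))
  calc (∑ i : Fin a, #{x ∈ S | comp x = .inl i}) + ∑ j : Fin m, #{x ∈ S | comp x = .inr j}
      ≤ (∑ _i : Fin a, 2) + ∑ _j : Fin m, 1 :=
        Nat.add_le_add (Finset.sum_le_sum fun i _ => h2 i) (Finset.sum_le_sum fun j _ => h3 j)
    _ = 2 * a + m := by simp [mul_comm]

/-- The neighbours of a vertex in the complement. -/
def nb {a m : ℕ} : Vert a m → Finset (Vert a m)
  | .inl p => {.inl (p.1, p.2 + 1), .inl (p.1, p.2 + 4)}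
  | .inr p => {.inr (p.1, p.2 + 1)}

lemma nb_card {a m : ℕ} (x : Vert a m) : #(nb x) ≤ 2 := by
  rcases x with p | p
  · exact Finset.card_le_two
  · simp [nb]

lemma mem_nb {a m : ℕ} {x y : Vert a m} (h : cadj x y) : y ∈ nb x := by
  rcases x with p | p <;> rcases y with q | q
  · obtain ⟨h1, h2⟩ := h
    simp only [nb, Finset.mem_insert, Finset.mem_singleton, Sum.inl.injEq]
    rcases h2 with h2 | h2
    · left
      exact Prod.ext h1.symm h2
    · right
      refine Prod.ext h1.symm ?_
      show q.2 = p.2 + 4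
      rw [h2]
      generalize q.2 = k
      revert k
      decide
  · exact absurd h (by simp [cadj])
  · exact absurd h (by simp [cadj])
  · obtain ⟨h1, h2⟩ := h
    simp only [nb, Finset.mem_singleton, Sum.inr.injEq]
    refine Prod.ext h1.symm ?_
    show q.2 = p.2 + 1
    revert h2
    generalize q.2 = k
    generalize p.2 = l
    revert k l
    decide

open Classical in
/-- The number of neighbours in `S` of a vertex of `S`. -/
lemma deg_ge {a m : ℕ} (S : Finset (Vert a m)) (x : Vert a m) :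
    #S ≤ #{y ∈ S | (G a m).Adj x y} + 1 + #(S ∩ nb x) := by
  have h1 : S ⊆ ({y ∈ S | (G a m).Adj x y} ∪ {x}) ∪ (S ∩ nb x) := by
    intro y hy
    simp only [Finset.mem_union, Finset.mem_filter, Finset.mem_singleton, Finset.mem_inter]
    by_cases hyx : y = x
    · exact Or.inl (Or.inr hyx)
    · by_cases hc : cadj x y
      · exact Or.inr ⟨hy, mem_nb hc⟩
      · exact Or.inl (Or.inl ⟨hy, G_adj.mpr ⟨fun h => hyx h.symm, hc⟩⟩)
  calc #S ≤ #(({y ∈ S | (G a m).Adj x y} ∪ {x}) ∪ (S ∩ nb x)) := Finset.card_le_card h1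
    _ ≤ #({y ∈ S | (G a m).Adj x y} ∪ {x}) + #(S ∩ nb x) := Finset.card_union_le _ _
    _ ≤ #{y ∈ S | (G a m).Adj x y} + #({x} : Finset (Vert a m)) + #(S ∩ nb x) := by
        gcongr
        exact Finset.card_union_le _ _
    _ = _ := by rw [Finset.card_singleton]

open Classical in
/-- A set whose size is not divisible by five is not closed under complement-neighbours. -/
lemma exists_missing {a m : ℕ} (S : Finset (Vert a m)) (hS : ¬ 5 ∣ #S) :
    ∃ x ∈ S, #(S ∩ nb x) ≤ 1 := by
  by_contra hcon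
  push Not at hcon
  -- every vertex of `S` lies on a five-cycle contained in `S`
  have h1 : ∀ x ∈ S, ∃ p, x = Sum.inl p ∧ (Sum.inl (p.1, p.2 + 1) : Vert a m) ∈ S := by
    intro x hx
    have h2 := hcon x hx
    have h3 : #(S ∩ nb x) ≤ #(nb x) := Finset.card_le_card Finset.inter_subset_right
    rcases x with p | p
    · refine ⟨p, rfl, ?_⟩
      have h4 : #(nb (Sum.inl p : Vert a m)) ≤ #(S ∩ nb (Sum.inl p : Vert a m)) := by
        have := nb_card (Sum.inl p : Vert a m)
        omega
      have h5 := Finset.eq_of_subset_of_card_le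
        (Finset.inter_subset_right : S ∩ nb (Sum.inl p : Vert a m) ⊆ nb (Sum.inl p)) h4
      have h6 : (Sum.inl (p.1, p.2 + 1) : Vert a m) ∈ nb (Sum.inl p : Vert a m) := by
        simp [nb]
      rw [← h5] at h6
      exact (Finset.mem_inter.mp h6).1
    · exfalso
      have : #(nb (Sum.inr p : Vert a m)) = 1 := by simp [nb]
      omega
  -- hence `S` is a union of five-cycles
  have h2 : ∀ i k, (Sum.inl (i, k) : Vert a m) ∈ S → (Sum.inl (i, k + 1) : Vert a m) ∈ S := by
    intro i k hik
    obtain ⟨p, hp1, hp2⟩ := h1 _ hik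
    have := Sum.inl_injective hp1
    rw [← this] at hp2
    exact hp2
  have h3 : ∀ i k, (Sum.inl (i, k) : Vert a m) ∈ S → ∀ l, (Sum.inl (i, l) : Vert a m) ∈ S := by
    intro i k hik l
    have e1 := h2 i k hik
    have e2 := h2 i _ e1
    have e3 := h2 i _ e2
    have e4 := h2 i _ e3
    have h4 : l = k ∨ l = k + 1 ∨ l = k + 1 + 1 ∨ l = k + 1 + 1 + 1 ∨ l = k + 1 + 1 + 1 + 1 := by
      clear * -
      revert k l
      decide
    rcases h4 with rfl | rfl | rfl | rfl | rfl <;> assumption
  let I : Finset (Fin a) := Finset.univ.filter (fun i => (Sum.inl (i, 0) : Vert a m) ∈ S)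
  let ψ : Fin a × Fin 5 ↪ Vert a m := ⟨Sum.inl, Sum.inl_injective⟩
  have h4 : S = (I ×ˢ (Finset.univ : Finset (Fin 5))).map ψ := by
    ext x
    simp only [Finset.mem_map, Finset.mem_product, Finset.mem_univ, and_true, I,
      Finset.mem_filter, true_and]
    constructor
    · intro hx
      obtain ⟨p, rfl, -⟩ := h1 x hx
      exact ⟨p, h3 p.1 p.2 hx 0, rfl⟩
    · rintro ⟨p, hp, rfl⟩
      exact h3 p.1 0 hp p.2
  apply hS
  rw [h4, Finset.card_map, Finset.card_product]
  simp

/-- Every set of size `h` not divisible by five spans more than `h(h-3)/2` edges of `G`. -/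
lemma many_edges {a m h : ℕ} (S : Finset (Vert a m)) (hS : #S = h) (h5 : ¬ 5 ∣ h) (h3 : 3 ≤ h) :
    h * (h - 3) < 2 * spanned (G a m) S := by
  classical
  rw [two_mul_spanned]
  obtain ⟨x0, hx0, hx0'⟩ := exists_missing S (by rwa [hS])
  have h1 : ∀ x ∈ S, h - 3 ≤ #{y ∈ S | (G a m).Adj x y} := by
    intro x hx
    have h2 := deg_ge S x
    have h3 : #(S ∩ nb x) ≤ #(nb x) := Finset.card_le_card Finset.inter_subset_right
    have h4 := nb_card x
    omega
  have h2 : h - 3 < #{y ∈ S | (G a m).Adj x0 y} := by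
    have h2 := deg_ge S x0
    omega
  calc h * (h - 3) = ∑ _x ∈ S, (h - 3) := by rw [Finset.sum_const, hS, smul_eq_mul]
    _ < ∑ x ∈ S, #{y ∈ S | (G a m).Adj x y} := Finset.sum_lt_sum h1 ⟨x0, hx0, h2⟩

/-- The parametric family of counterexamples. -/
lemma family (r a h : ℕ) (h2 : 2 * a ≤ r) (hr : 3 ≤ r) (hh : h = (2 * r + a) / 2) (h3 : 3 ∣ h)
    (h5 : ¬ 5 ∣ h) (ha : h ≤ 3 * a) :
    ∃ (V : Type) (_ : Fintype V) (G : SimpleGraph V), Fintype.card V = 2 * r + a ∧
      G.CliqueFree (r + 1) ∧
      ∀ S : Finset V, S.card = (2 * r + a) / 2 → b (r + 1) (2 * r + a) < spanned G S := by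
  refine ⟨Vert a (r - 2 * a), inferInstance, G a (r - 2 * a), ?_, ?_, ?_⟩
  · simp only [Fintype.card_sum, Fintype.card_prod, Fintype.card_fin]
    omega
  · intro S hS
    have h1 := clique_card S hS.isClique
    have h2 := hS.card_eq
    omega
  · intro S hS
    obtain ⟨c, hc⟩ := h3
    have h1 := b_le r a h c (by omega) (by omega) hh hc (by omega)
    have h2 := many_edges (h := h) S (hS.trans hh.symm) h5 (by omega)
    omega

/-- Existence of the parameters for large `r`. -/
lemma params_large (r : ℕ) (hr : 108 ≤ r) :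
    ∃ a, 2 * a ≤ r ∧ 3 ∣ (2 * r + a) / 2 ∧ ¬ 5 ∣ (2 * r + a) / 2 ∧ (2 * r + a) / 2 ≤ 3 * a := by
  -- `j = ⌈2r/5⌉`
  obtain ⟨j, hj1, hj2⟩ : ∃ j, 2 * r ≤ 5 * j ∧ 5 * j < 2 * r + 5 := ⟨(2 * r + 4) / 5, by omega, by omega⟩
  by_cases h : 5 ∣ j
  · refine ⟨2 * (3 * (j + 1) - r), by omega, ?_, ?_, ?_⟩
    · have : (2 * r + 2 * (3 * (j + 1) - r)) / 2 = 3 * (j + 1) := by omega
      rw [this]
      exact Dvd.intro _ rfl
    · have : (2 * r + 2 * (3 * (j + 1) - r)) / 2 = 3 * (j + 1) := by omega
      rw [this]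
      omega
    · omega
  · refine ⟨2 * (3 * j - r), by omega, ?_, ?_, ?_⟩
    · have : (2 * r + 2 * (3 * j - r)) / 2 = 3 * j := by omega
      rw [this]
      exact Dvd.intro _ rfl
    · have : (2 * r + 2 * (3 * j - r)) / 2 = 3 * j := by omega
      rw [this]
      omega
    · omega

/-- The finitely many values of `t ≥ 4` not covered by the construction. -/
def exceptional : List ℕ :=
  [5, 7, 8, 10, 12, 13, 14, 15, 17, 20, 22, 25, 26, 27, 32, 37, 38, 39, 50, 51, 62, 63, 75, 87]

lemma params_small : ∀ r < 108, 3 ≤ r → r + 1 ∉ exceptional →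
    ∃ a ≤ r, 2 * a ≤ r ∧ (2 * r + a) / 2 % 3 = 0 ∧ (2 * r + a) / 2 % 5 ≠ 0 ∧
      (2 * r + a) / 2 ≤ 3 * a := by
  decide +kernel

lemma params (r : ℕ) (hr : 3 ≤ r) (hex : r + 1 ∉ exceptional) :
    ∃ a, 2 * a ≤ r ∧ 3 ∣ (2 * r + a) / 2 ∧ ¬ 5 ∣ (2 * r + a) / 2 ∧ (2 * r + a) / 2 ≤ 3 * a := by
  rcases lt_or_ge r 108 with h | h
  · obtain ⟨a, -, h1, h2, h3, h4⟩ := params_small r h hr hex
    exact ⟨a, h1, Nat.dvd_of_mod_eq_zero h2, fun h5 => h3 (Nat.mod_eq_zero_of_dvd h5), h4⟩
  · exact params_large r h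

/-- For every `t ≥ 4` outside an explicit set of 24 values (all at most `87`) the exact
Chung-Graham statement fails for some `n` with `2(t-1) ≤ n ≤ 5(t-1)/2`: there is a `K_t`-free graph
on `n` vertices in which every set of `⌊n/2⌋` vertices spans more than `b_t(n)` edges. -/
theorem result : ∀ t : ℕ, 4 ≤ t →
    t ∉ [5, 7, 8, 10, 12, 13, 14, 15, 17, 20, 22, 25, 26, 27, 32, 37, 38, 39, 50, 51, 62, 63, 75,
      87] →
    ∃ n : ℕ, 2 * (t - 1) ≤ n ∧ 2 * n ≤ 5 * (t - 1) ∧
      ∃ (V : Type) (_ : Fintype V) (G : SimpleGraph V), Fintype.card V = n ∧ G.CliqueFree t ∧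
        ∀ S : Finset V, S.card = n / 2 → b t n < spanned G S := by
  intro t ht hex
  obtain ⟨r, rfl⟩ : ∃ r, t = r + 1 := ⟨t - 1, by omega⟩
  obtain ⟨a, h1, h2, h3, h4⟩ := params r (by omega) hex
  exact ⟨2 * r + a, by omega, by omega, family r a _ h1 (by omega) rfl h2 h3 h4⟩

end Pool.Agent.Results.MP_c86f36_co.ExactFormFails
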